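import Mathlib

/-!
# Clue profile and noise sensitivity: a counterexample

Tribes on a small set of variables, joined with the conjunction of a huge number of further
variables: all variables are relevant, the functions are monotone, non-degenerate and noise
sensitive, but the clue profile at every level `δ` is much smaller than the mean clue of a
random set of density `δ`.
-/

open Finset Filter Topology

namespace Pool.Agent.Results.MP_b26fee_pr.CheapReveal

section Defs

variable {V S : Type} [Fintype V] [DecidableEq V] [Fintype S]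

/-- The sum of `Φ` over `V → S` with product weights `∏ w`; an expectation for independent
coordinates when `w` is a probability weight on `S`. -/
noncomputable def prodSum (w : S → ℝ) (Φ : (V → S) → ℝ) : ℝ :=
  ∑ ζ : V → S, (∏ v, w (ζ v)) * Φ ζ

/-- The law of one coordinate: `true` (that is `+1`) has probability `p`. -/
noncomputable def law (p : ℝ) (b : Bool) : ℝ := if b then p else 1 - p

/-- The expectation of `F` under the product measure. -/
noncomputable def mean (p : ℝ) (F : (V → Bool) → ℝ) : ℝ := prodSum (law p) F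

/-- The variance of `F` under the product measure. -/
noncomputable def variance (p : ℝ) (F : (V → Bool) → ℝ) : ℝ :=
  mean p (fun ω => F ω ^ 2) - mean p F ^ 2

/-- The conditional expectation of `F` given the coordinates in `U`. -/
noncomputable def condMean (p : ℝ) (F : (V → Bool) → ℝ) (U : Finset V) (ω : V → Bool) : ℝ :=
  mean p (fun η => F (fun v => if v ∈ U then ω v else η v))

/-- The clue of `U` about `F`. -/
noncomputable def clue (p : ℝ) (F : (V → Bool) → ℝ) (U : Finset V) : ℝ :=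
  variance p (condMean p F U) / variance p F

/-- The mean clue of a random set containing each element independently with probability `δ`. -/
noncomputable def meanClue (p : ℝ) (F : (V → Bool) → ℝ) (δ : ℝ) : ℝ :=
  ∑ U : Finset V, δ ^ U.card * (1 - δ) ^ (Fintype.card V - U.card) * clue p F U

/-- The clue profile. -/
noncomputable def clueProfile (p : ℝ) (F : (V → Bool) → ℝ) (s : ℝ) : ℝ :=
  sInf {u : ℝ | ∃ U : Finset V, (U.card : ℝ) / Fintype.card V ≤ u ∧ s ≤ clue p F U}

/-- The `±1`-valued version of a Boolean function. -/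
def sgn (f : (V → Bool) → Bool) (ω : V → Bool) : ℝ := if f ω then 1 else -1

/-- The joint law of a coordinate and its noisy version: with probability `ε` the coordinate is
resampled independently. -/
noncomputable def noisyLaw (p ε : ℝ) (ab : Bool × Bool) : ℝ :=
  law p ab.1 * ((1 - ε) * (if ab.1 = ab.2 then 1 else 0) + ε * law p ab.2)

/-- `E[F(ω) F(ω^ε)] - E[F]²`. -/
noncomputable def noiseCov (p ε : ℝ) (F : (V → Bool) → ℝ) : ℝ :=
  prodSum (noisyLaw p ε) (fun ζ => F (fun v => (ζ v).1) * F (fun v => (ζ v).2)) - mean p F ^ 2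

end Defs

/-! ### Product sums -/

section ProdSum

variable {V W S : Type} [Fintype V] [DecidableEq V] [Fintype W] [DecidableEq W] [Fintype S]

theorem prodSum_prod (w : S → ℝ) (ψ : V → S → ℝ) :
    prodSum w (fun ζ : V → S => ∏ v, ψ v (ζ v)) = ∏ v, ∑ s, w s * ψ v s := by
  unfold prodSum
  rw [Fintype.prod_sum]
  refine sum_congr rfl fun ζ _ => ?_
  rw [prod_mul_distrib]

theorem prodSum_one (w : S → ℝ) (hw : ∑ s, w s = 1) :
    prodSum w (fun _ : V → S => 1) = 1 := by
  have h := prodSum_prod (V := V) w (fun _ _ => 1)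
  simp only [prod_const_one, mul_one, hw] at h
  exact h

theorem prodSum_add (w : S → ℝ) (Φ Ψ : (V → S) → ℝ) :
    prodSum w (fun ζ => Φ ζ + Ψ ζ) = prodSum w Φ + prodSum w Ψ := by
  unfold prodSum
  rw [← sum_add_distrib]
  exact sum_congr rfl fun ζ _ => by ring

theorem prodSum_sub (w : S → ℝ) (Φ Ψ : (V → S) → ℝ) :
    prodSum w (fun ζ => Φ ζ - Ψ ζ) = prodSum w Φ - prodSum w Ψ := by
  unfold prodSum
  rw [← sum_sub_distrib]
  exact sum_congr rfl fun ζ _ => by ring

theorem prodSum_const_mul (w : S → ℝ) (c : ℝ) (Φ : (V → S) → ℝ) :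
    prodSum w (fun ζ => c * Φ ζ) = c * prodSum w Φ := by
  unfold prodSum
  rw [mul_sum]
  exact sum_congr rfl fun ζ _ => by ring

theorem prodSum_const (w : S → ℝ) (hw : ∑ s, w s = 1) (c : ℝ) :
    prodSum w (fun _ : V → S => c) = c := by
  have := prodSum_const_mul (V := V) w c (fun _ => 1)
  rw [prodSum_one w hw, mul_one] at this
  simpa using this

theorem prodSum_mono (w : S → ℝ) (hw : ∀ s, 0 ≤ w s) {Φ Ψ : (V → S) → ℝ} (h : ∀ ζ, Φ ζ ≤ Ψ ζ) :
    prodSum w Φ ≤ prodSum w Ψ :=
  sum_le_sum fun ζ _ => mul_le_mul_of_nonneg_left (h ζ) (prod_nonneg fun _ _ => hw _)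

theorem prodSum_sumType (w : S → ℝ) (Φ : (V → S) → ℝ) (Ψ : (W → S) → ℝ) :
    prodSum w (fun ζ : V ⊕ W → S => Φ (fun v => ζ (Sum.inl v)) * Ψ (fun v => ζ (Sum.inr v))) =
      prodSum w Φ * prodSum w Ψ := by
  unfold prodSum
  rw [sum_mul_sum, ← sum_product', univ_product_univ]
  refine Fintype.sum_equiv (Equiv.sumArrowEquivProdArrow V W S) _ _ fun ζ => ?_
  rw [Fintype.prod_sum_type]
  simp only [Equiv.sumArrowEquivProdArrow, Equiv.coe_fn_mk]
  simp only [Function.comp_def]
  ring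

theorem prodSum_block (w : S → ℝ) (φ : (W → S) → ℝ) :
    prodSum w (fun ζ : V × W → S => ∏ a, φ (fun b => ζ (a, b))) =
      (prodSum w φ) ^ Fintype.card V := by
  have h1 : (prodSum w φ) ^ Fintype.card V = ∏ _a : V, prodSum w φ := by
    rw [prod_const, card_univ]
  rw [h1]
  unfold prodSum
  rw [Fintype.prod_sum]
  refine Fintype.sum_equiv (Equiv.curry V W S) _ _ fun ζ => ?_
  rw [prod_mul_distrib, Fintype.prod_prod_type]
  rfl

/-- the measure preserving exchange of the coordinates outside `U` -/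
theorem exchange (w : S → ℝ) (U : Finset V) (Φ : (V → S) → (V → S) → ℝ) :
    prodSum w (fun ω => prodSum w (fun η => Φ (fun v => if v ∈ U then ω v else η v)
      (fun v => if v ∈ U then η v else ω v))) =
    prodSum w (fun ω => prodSum w (fun η => Φ ω η)) := by
  unfold prodSum
  simp only [mul_sum, ← sum_product', univ_product_univ]
  let e : (V → S) × (V → S) ≃ (V → S) × (V → S) :=
    { toFun := fun z => (fun v => if v ∈ U then z.1 v else z.2 v,
        fun v => if v ∈ U then z.2 v else z.1 v)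
      invFun := fun z => (fun v => if v ∈ U then z.1 v else z.2 v,
        fun v => if v ∈ U then z.2 v else z.1 v)
      left_inv := fun z => by
        ext v <;> by_cases h : v ∈ U <;> simp [h]
      right_inv := fun z => by
        ext v <;> by_cases h : v ∈ U <;> simp [h] }
  refine Fintype.sum_equiv e _ _ fun z => ?_
  have h : (∏ v, w (z.1 v)) * (∏ v, w (z.2 v)) =
      (∏ v, w ((e z).1 v)) * (∏ v, w ((e z).2 v)) := by
    rw [← prod_mul_distrib, ← prod_mul_distrib]
    refine prod_congr rfl fun v _ => ?_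
    by_cases h : v ∈ U <;> simp [e, h, mul_comm]
  rw [← mul_assoc, ← mul_assoc, h]
  rfl

end ProdSum

/-! ### Conditional means -/

section Cond

variable {V : Type} [Fintype V] [DecidableEq V]

theorem law_sum (p : ℝ) : ∑ b, law p b = 1 := by
  simp [law]

theorem law_nonneg {p : ℝ} (h0 : 0 ≤ p) (h1 : p ≤ 1) (b : Bool) : 0 ≤ law p b := by
  unfold law
  split_ifs <;> linarith

theorem mean_mix (p : ℝ) (U : Finset V) (F : (V → Bool) → ℝ) :
    mean p (fun ω => mean p (fun η => F (fun v => if v ∈ U then ω v else η v))) = mean p F := by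
  unfold mean
  rw [exchange (law p) U (fun ω _ => F ω)]
  simp only [prodSum_const (law p) (law_sum p)]

theorem mean_condMean (p : ℝ) (U : Finset V) (F : (V → Bool) → ℝ) :
    mean p (condMean p F U) = mean p F := mean_mix p U F

theorem condMean_tower (p : ℝ) {U U' : Finset V} (h : U ⊆ U') (F : (V → Bool) → ℝ) :
    condMean p (condMean p F U') U = condMean p F U := by
  funext ω
  show mean p (fun η => mean p (fun ζ => F (fun v => if v ∈ U' then
    (if v ∈ U then ω v else η v) else ζ v))) = mean p (fun η => F (fun v => if v ∈ U then ω v else η v))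
  rw [← mean_mix p U' (fun η => F (fun v => if v ∈ U then ω v else η v))]
  congr 1
  funext η
  congr 1
  funext ζ
  congr 1
  funext v
  by_cases h1 : v ∈ U
  · simp [h1, h h1]
  · by_cases h2 : v ∈ U' <;> simp [h1, h2]

theorem sq_mean_le {p : ℝ} (h0 : 0 ≤ p) (h1 : p ≤ 1) (F : (V → Bool) → ℝ) :
    mean p F ^ 2 ≤ mean p (fun ω => F ω ^ 2) := by
  have h : 0 ≤ mean p (fun ω => (F ω - mean p F) ^ 2) :=
    sum_nonneg fun ω _ => mul_nonneg (prod_nonneg fun _ _ => law_nonneg h0 h1 _) (sq_nonneg _)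
  have e : mean p (fun ω => (F ω - mean p F) ^ 2) = mean p (fun ω => F ω ^ 2) - mean p F ^ 2 := by
    have e1 : (fun ω => (F ω - mean p F) ^ 2) =
        fun ω => (F ω ^ 2 - 2 * mean p F * F ω) + mean p F ^ 2 := by funext ω; ring
    rw [e1]
    unfold mean
    rw [prodSum_add, prodSum_sub, prodSum_const_mul, prodSum_const _ (law_sum p)]
    ring
  linarith

theorem variance_nonneg {p : ℝ} (h0 : 0 ≤ p) (h1 : p ≤ 1) (F : (V → Bool) → ℝ) :
    0 ≤ variance p F := sub_nonneg.2 (sq_mean_le h0 h1 F)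

theorem variance_condMean_le {p : ℝ} (h0 : 0 ≤ p) (h1 : p ≤ 1) (U : Finset V)
    (F : (V → Bool) → ℝ) : variance p (condMean p F U) ≤ variance p F := by
  unfold variance
  rw [mean_condMean]
  refine sub_le_sub_right ?_ _
  calc mean p (fun ω => condMean p F U ω ^ 2)
      ≤ mean p (fun ω => mean p (fun η => F (fun v => if v ∈ U then ω v else η v) ^ 2)) :=
        prodSum_mono _ (law_nonneg h0 h1) fun ω => sq_mean_le h0 h1 _
    _ = mean p (fun ω => F ω ^ 2) := mean_mix p U (fun ω => F ω ^ 2)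

theorem variance_condMean_mono {p : ℝ} (h0 : 0 ≤ p) (h1 : p ≤ 1) {U U' : Finset V} (h : U ⊆ U')
    (F : (V → Bool) → ℝ) : variance p (condMean p F U) ≤ variance p (condMean p F U') := by
  rw [← condMean_tower p h]
  exact variance_condMean_le h0 h1 _ _

theorem clue_mono {p : ℝ} (h0 : 0 ≤ p) (h1 : p ≤ 1) {U U' : Finset V} (h : U ⊆ U')
    (F : (V → Bool) → ℝ) : clue p F U ≤ clue p F U' :=
  div_le_div_of_nonneg_right (variance_condMean_mono h0 h1 h F) (variance_nonneg h0 h1 F)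

theorem clue_nonneg {p : ℝ} (h0 : 0 ≤ p) (h1 : p ≤ 1) (U : Finset V) (F : (V → Bool) → ℝ) :
    0 ≤ clue p F U := div_nonneg (variance_nonneg h0 h1 _) (variance_nonneg h0 h1 _)

theorem clue_empty (p : ℝ) (F : (V → Bool) → ℝ) : clue p F ∅ = 0 := by
  have h : condMean p F ∅ = fun _ => mean p F := by
    funext ω
    simp [condMean]
  unfold clue variance
  rw [h]
  simp only [mean, prodSum_const _ (law_sum p)]
  simp

theorem variance_affine (p c d : ℝ) (F : (V → Bool) → ℝ) :
    variance p (fun ω => c + d * F ω) = d ^ 2 * variance p F := by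
  unfold variance mean
  have e1 : (fun ω : V → Bool => (c + d * F ω) ^ 2) =
      fun ω => (c ^ 2 + 2 * c * d * F ω) + d ^ 2 * F ω ^ 2 := by funext ω; ring
  rw [e1, prodSum_add, prodSum_add, prodSum_const_mul, prodSum_const_mul, prodSum_add,
    prodSum_const_mul, prodSum_const _ (law_sum p), prodSum_const _ (law_sum p)]
  ring

theorem condMean_affine (p c d : ℝ) (F : (V → Bool) → ℝ) (U : Finset V) :
    condMean p (fun ω => c + d * F ω) U = fun ω => c + d * condMean p F U ω := by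
  funext ω
  unfold condMean mean
  rw [prodSum_add, prodSum_const_mul, prodSum_const _ (law_sum p)]

theorem clue_affine (p c : ℝ) {d : ℝ} (hd : d ≠ 0) (F : (V → Bool) → ℝ) (U : Finset V) :
    clue p (fun ω => c + d * F ω) U = clue p F U := by
  unfold clue
  rw [condMean_affine, variance_affine, variance_affine, mul_div_mul_left _ _ (pow_ne_zero 2 hd)]

theorem meanClue_ge {p : ℝ} (h0 : 0 ≤ p) (h1 : p ≤ 1) {δ : ℝ} (hδ0 : 0 ≤ δ) (hδ1 : δ ≤ 1)
    (F : (V → Bool) → ℝ) (W : Finset V) : δ ^ W.card * clue p F W ≤ meanClue p F δ := by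
  have hkey : δ ^ W.card = ∑ U : Finset V, (∏ _v ∈ U, δ) *
      ∏ v ∈ univ \ U, (if v ∈ W then 0 else 1 - δ) := by
    have h := Finset.prod_add (fun _ : V => δ) (fun v => if v ∈ W then 0 else 1 - δ) univ
    rw [powerset_univ] at h
    rw [← h]
    have h2 : ∀ v : V, (δ + (if v ∈ W then 0 else 1 - δ)) = if v ∈ W then δ else 1 := by
      intro v; split_ifs <;> ring
    simp only [h2]
    rw [prod_ite_mem, univ_inter, prod_const]
  rw [hkey, sum_mul]
  unfold meanClue
  refine sum_le_sum fun U _ => ?_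
  by_cases hWU : W ⊆ U
  · have h3 : ∏ v ∈ univ \ U, (if v ∈ W then 0 else 1 - δ) =
        (1 - δ) ^ (Fintype.card V - U.card) := by
      rw [← card_univ, ← card_sdiff_of_subset (subset_univ U), ← prod_const]
      refine prod_congr rfl fun v hv => ?_
      have : v ∉ W := fun h => (mem_sdiff.1 hv).2 (hWU h)
      simp [this]
    rw [h3, prod_const]
    refine mul_le_mul_of_nonneg_left (clue_mono h0 h1 hWU F) ?_
    have : 0 ≤ 1 - δ := by linarith
    positivity
  · obtain ⟨v, hvW, hvU⟩ := Finset.not_subset.1 hWU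
    have h3 : ∏ v ∈ univ \ U, (if v ∈ W then 0 else 1 - δ) = 0 :=
      prod_eq_zero (i := v) (by simp [hvU]) (by simp [hvW])
    rw [h3, mul_zero, zero_mul]
    have : 0 ≤ 1 - δ := by linarith
    exact mul_nonneg (by positivity) (clue_nonneg h0 h1 _ _)

theorem clueProfile_le {p : ℝ} {F : (V → Bool) → ℝ} {s : ℝ} {W : Finset V}
    (h : s ≤ clue p F W) : clueProfile p F s ≤ (W.card : ℝ) / Fintype.card V := by
  refine csInf_le ⟨0, ?_⟩ ⟨W, le_rfl, h⟩
  rintro u ⟨U, hU, -⟩
  exact le_trans (by positivity) hU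

theorem clueProfile_pos {p : ℝ} {F : (V → Bool) → ℝ} {s : ℝ} (hs : 0 < s) {W : Finset V}
    (h : s ≤ clue p F W) : 0 < clueProfile p F s := by
  have hcard : ∀ U : Finset V, s ≤ clue p F U → 1 ≤ U.card := by
    intro U hU
    rw [Nat.one_le_iff_ne_zero, Ne, Finset.card_eq_zero]
    rintro rfl
    rw [clue_empty] at hU
    linarith
  have hV : 0 < Fintype.card V := lt_of_lt_of_le (hcard W h) (card_le_univ W)
  have hV' : (0 : ℝ) < Fintype.card V := by exact_mod_cast hV
  refine lt_of_lt_of_le (show (0 : ℝ) < 1 / Fintype.card V by positivity) ?_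
  refine le_csInf ⟨_, ⟨W, le_rfl, h⟩⟩ ?_
  rintro u ⟨U, hU, hU2⟩
  refine le_trans (div_le_div_of_nonneg_right ?_ hV'.le) hU
  exact_mod_cast hcard U hU2

end Cond

/-! ### Tribes joined with a huge conjunction -/

section Example

/-- the variables: `N = 2^k` blocks of `k` variables, and `D` further variables -/
abbrev Vars (k D : ℕ) : Type := (Fin (2 ^ k) × Fin k) ⊕ Fin D

/-- some block is all `true`, or all the further variables are `true` -/
def tribesOrAnd (k D : ℕ) (ω : Vars k D → Bool) : Bool :=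
  decide ((∃ a, ∀ b, ω (Sum.inl (a, b)) = true) ∨ ∀ d, ω (Sum.inr d) = true)

/-- the indicator of `true` -/
def bit (b : Bool) : ℝ := if b then 1 else 0

/-- product form: no block is all one and not all the further coordinates are one -/
noncomputable def blocks {S : Type} (x : S → ℝ) (k : ℕ) (ζ : Fin (2 ^ k) × Fin k → S) : ℝ :=
  ∏ a, (1 - ∏ b, x (ζ (a, b)))

/-- product form for the further coordinates -/
noncomputable def rest {S : Type} (x : S → ℝ) (D : ℕ) (ζ : Fin D → S) : ℝ := 1 - ∏ d, x (ζ d)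

/-- the indicator of `tribesOrAnd = false` -/
noncomputable def ind (k D : ℕ) (ω : Vars k D → Bool) : ℝ :=
  blocks bit k (fun v => ω (Sum.inl v)) * rest bit D (fun v => ω (Sum.inr v))

theorem prod_bit {ι : Type} [Fintype ι] (ω : ι → Bool) :
    ∏ i, bit (ω i) = if ∀ i, ω i = true then 1 else 0 := by
  unfold bit
  split_ifs with h
  · exact prod_eq_one fun i _ => by simp [h i]
  · push Not at h
    obtain ⟨i, hi⟩ := h
    exact prod_eq_zero (mem_univ i) (by simp [hi])

theorem ind_eq (k D : ℕ) (ω : Vars k D → Bool) :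
    ind k D ω = if tribesOrAnd k D ω then 0 else 1 := by
  unfold ind blocks rest tribesOrAnd
  simp only [prod_bit, decide_eq_true_eq]
  by_cases h1 : ∃ a, ∀ b, ω (Sum.inl (a, b)) = true
  · obtain ⟨a, ha⟩ := h1
    rw [prod_eq_zero (mem_univ a) (by simp [ha])]
    rw [if_pos (Or.inl ⟨a, ha⟩), zero_mul]
  · rw [Finset.prod_eq_one (fun a _ => by rw [if_neg (fun h => h1 ⟨a, h⟩), sub_zero])]
    by_cases h3 : ∀ d, ω (Sum.inr d) = true
    · rw [if_pos h3, if_pos (Or.inr h3)]
      norm_num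
    · rw [if_neg h3, if_neg (not_or.2 ⟨h1, h3⟩)]
      norm_num

theorem sgn_eq (k D : ℕ) (ω : Vars k D → Bool) :
    sgn (tribesOrAnd k D) ω = 1 + (-2) * ind k D ω := by
  rw [ind_eq]
  unfold sgn
  split_ifs <;> norm_num

theorem ind_sq (k D : ℕ) (ω : Vars k D → Bool) : ind k D ω ^ 2 = ind k D ω := by
  rw [ind_eq]
  split_ifs <;> norm_num

variable {S : Type} [Fintype S]

theorem prodSum_blocks (w : S → ℝ) (hw : ∑ s, w s = 1) (x : S → ℝ) (k : ℕ) :
    prodSum w (blocks x k) = (1 - (∑ s, w s * x s) ^ k) ^ (2 ^ k) := by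
  unfold blocks
  rw [prodSum_block w (fun ξ : Fin k → S => 1 - ∏ b, x (ξ b)), prodSum_sub, prodSum_one w hw,
    prodSum_prod w (fun _ => x)]
  simp

theorem prodSum_rest (w : S → ℝ) (hw : ∑ s, w s = 1) (x : S → ℝ) (D : ℕ) :
    prodSum w (rest x D) = 1 - (∑ s, w s * x s) ^ D := by
  unfold rest
  rw [prodSum_sub, prodSum_one w hw, prodSum_prod w (fun _ => x)]
  simp

theorem prodSum_blocks2 (w : S → ℝ) (hw : ∑ s, w s = 1) (x y : S → ℝ) (k : ℕ) :
    prodSum w (fun ζ => blocks x k ζ * blocks y k ζ) =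
      (1 - (∑ s, w s * x s) ^ k - (∑ s, w s * y s) ^ k + (∑ s, w s * (x s * y s)) ^ k) ^ (2 ^ k) := by
  unfold blocks
  simp only [← prod_mul_distrib]
  rw [prodSum_block w (fun ξ : Fin k → S => (1 - ∏ b, x (ξ b)) * (1 - ∏ b, y (ξ b)))]
  have e : (fun ξ : Fin k → S => (1 - ∏ b, x (ξ b)) * (1 - ∏ b, y (ξ b))) =
      fun ξ => ((1 - ∏ b, x (ξ b)) - ∏ b, y (ξ b)) + ∏ b, (x (ξ b) * y (ξ b)) := by
    funext ξ
    rw [prod_mul_distrib]
    ring
  rw [e, prodSum_add, prodSum_sub, prodSum_sub, prodSum_one w hw, prodSum_prod w (fun _ => x),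
    prodSum_prod w (fun _ => y), prodSum_prod w (fun _ s => x s * y s)]
  simp

theorem prodSum_rest2 (w : S → ℝ) (hw : ∑ s, w s = 1) (x y : S → ℝ) (D : ℕ) :
    prodSum w (fun ζ => rest x D ζ * rest y D ζ) =
      1 - (∑ s, w s * x s) ^ D - (∑ s, w s * y s) ^ D + (∑ s, w s * (x s * y s)) ^ D := by
  unfold rest
  have e : (fun ξ : Fin D → S => (1 - ∏ b, x (ξ b)) * (1 - ∏ b, y (ξ b))) =
      fun ξ => ((1 - ∏ b, x (ξ b)) - ∏ b, y (ξ b)) + ∏ b, (x (ξ b) * y (ξ b)) := by
    funext ξ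
    rw [prod_mul_distrib]
    ring
  rw [e, prodSum_add, prodSum_sub, prodSum_sub, prodSum_one w hw, prodSum_prod w (fun _ => x),
    prodSum_prod w (fun _ => y), prodSum_prod w (fun _ s => x s * y s)]
  simp

/-- `P(no block is all one)` -/
noncomputable def aa (k : ℕ) : ℝ := (1 - (1 / 2 : ℝ) ^ k) ^ (2 ^ k)

/-- `P(not all further coordinates are one)` -/
noncomputable def hh (D : ℕ) : ℝ := 1 - (1 / 2 : ℝ) ^ D

theorem bit_sum : ∑ s, law (1 / 2) s * bit s = 1 / 2 := by
  simp [law, bit]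

theorem mean_ind (k D : ℕ) : mean (1 / 2) (ind k D) = aa k * hh D := by
  unfold mean ind
  rw [prodSum_sumType (law (1 / 2)) (blocks bit k) (rest bit D), prodSum_blocks _ (law_sum _),
    prodSum_rest _ (law_sum _), bit_sum]
  rfl

theorem variance_ind (k D : ℕ) :
    variance (1 / 2) (ind k D) = aa k * hh D - (aa k * hh D) ^ 2 := by
  unfold variance
  simp only [ind_sq]
  rw [mean_ind]

/-- the small set of variables -/
def small (k D : ℕ) : Finset (Vars k D) := univ.map ⟨Sum.inl, Sum.inl_injective⟩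

theorem small_card (k D : ℕ) : (small k D).card = 2 ^ k * k := by
  simp [small]

theorem condMean_small (k D : ℕ) : condMean (1 / 2) (ind k D) (small k D) =
    fun ω => hh D * blocks bit k (fun v => ω (Sum.inl v)) := by
  funext ω
  unfold condMean ind
  have h1 : ∀ v, (Sum.inl v : Vars k D) ∈ small k D := by intro v; simp [small]
  have h2 : ∀ v, (Sum.inr v : Vars k D) ∉ small k D := by intro v; simp [small]
  simp only [h1, h2, if_true, if_false]
  unfold mean
  rw [prodSum_const_mul]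
  have h3 := prodSum_sumType (law (1 / 2)) (V := Fin (2 ^ k) × Fin k) (fun _ => 1) (rest bit D)
  rw [prodSum_one _ (law_sum _)] at h3
  simp only [one_mul] at h3
  rw [h3, prodSum_rest _ (law_sum _), bit_sum]
  unfold hh
  ring

theorem blocks_sq (k : ℕ) (ω : Fin (2 ^ k) × Fin k → Bool) : blocks bit k ω ^ 2 = blocks bit k ω := by
  unfold blocks
  rw [← prod_pow]
  refine prod_congr rfl fun a _ => ?_
  rw [prod_bit]
  split_ifs <;> norm_num

theorem variance_condMean_small (k D : ℕ) :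
    variance (1 / 2) (condMean (1 / 2) (ind k D) (small k D)) =
      hh D ^ 2 * (aa k - aa k ^ 2) := by
  rw [condMean_small]
  unfold variance mean
  have e : (fun ω : Vars k D → Bool => (hh D * blocks bit k (fun v => ω (Sum.inl v))) ^ 2) =
      fun ω => hh D ^ 2 * blocks bit k (fun v => ω (Sum.inl v)) := by
    funext ω
    rw [mul_pow, blocks_sq]
  have h3 := prodSum_sumType (law (1 / 2)) (W := Fin D) (blocks bit k) (fun _ => 1)
  rw [prodSum_one _ (law_sum _)] at h3
  simp only [mul_one] at h3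
  rw [e, prodSum_const_mul, prodSum_const_mul, h3, prodSum_blocks _ (law_sum _), bit_sum]
  unfold aa
  ring

theorem hh_nonneg (D : ℕ) : 0 ≤ hh D := by
  unfold hh
  have : (1 / 2 : ℝ) ^ D ≤ 1 := pow_le_one₀ (by norm_num) (by norm_num)
  linarith

theorem hh_le (D : ℕ) : hh D ≤ 1 := by
  unfold hh
  have : (0 : ℝ) ≤ (1 / 2 : ℝ) ^ D := by positivity
  linarith

theorem aa_le (k : ℕ) : aa k ≤ 1 / 2 := by
  unfold aa
  have h1 : (1 : ℝ) - (1 / 2) ^ k ≤ Real.exp (-(1 / 2) ^ k) := by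
    have := Real.add_one_le_exp (-(1 / 2 : ℝ) ^ k)
    linarith
  have h0 : (0 : ℝ) ≤ 1 - (1 / 2) ^ k := hh_nonneg k
  calc (1 - (1 / 2 : ℝ) ^ k) ^ (2 ^ k) ≤ Real.exp (-(1 / 2) ^ k) ^ (2 ^ k) :=
        pow_le_pow_left₀ h0 h1 _
    _ = Real.exp (-1) := by
        rw [← Real.exp_nat_mul]
        congr 1
        push_cast
        rw [mul_neg, ← mul_pow]
        norm_num
    _ ≤ 1 / 2 := by
        rw [Real.exp_neg, one_div]
        refine inv_anti₀ (by norm_num) ?_
        have := Real.add_one_le_exp (1 : ℝ)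
        linarith

theorem aa_ge (k : ℕ) (hk : 1 ≤ k) : 1 / 4 ≤ aa k := by
  unfold aa
  obtain ⟨j, rfl⟩ : ∃ j, k = j + 1 := ⟨k - 1, by omega⟩
  have h1 : (2 : ℕ) ^ (j + 1) = 2 ^ j * 2 := by ring
  rw [h1, pow_mul]
  have hb : (1 : ℝ) / 2 ≤ (1 - (1 / 2 : ℝ) ^ (j + 1)) ^ (2 ^ j) := by
    have h2 : (-2 : ℝ) ≤ -(1 / 2 : ℝ) ^ (j + 1) := by
      have : (1 / 2 : ℝ) ^ (j + 1) ≤ 1 := pow_le_one₀ (by norm_num) (by norm_num)
      linarith
    have h3 := one_add_mul_le_pow h2 (2 ^ j)
    have h4 : (1 : ℝ) + ((2 ^ j : ℕ) : ℝ) * -(1 / 2 : ℝ) ^ (j + 1) = 1 / 2 := by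
      push_cast
      rw [pow_succ, mul_neg, ← mul_assoc, ← mul_pow]
      norm_num
    rw [h4] at h3
    calc (1 : ℝ) / 2 ≤ (1 + -(1 / 2 : ℝ) ^ (j + 1)) ^ (2 ^ j) := h3
      _ = _ := by ring_nf
  calc (1 : ℝ) / 4 = (1 / 2) ^ 2 := by norm_num
    _ ≤ _ := pow_le_pow_left₀ (by norm_num) hb 2

theorem clue_small (k D : ℕ) : clue (1 / 2) (sgn (tribesOrAnd k D)) (small k D) =
    hh D ^ 2 * (aa k - aa k ^ 2) / (aa k * hh D - (aa k * hh D) ^ 2) := by
  have e : sgn (tribesOrAnd k D) = fun ω => 1 + (-2) * ind k D ω := funext (sgn_eq k D)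
  rw [e, clue_affine _ _ (by norm_num)]
  unfold clue
  rw [variance_condMean_small, variance_ind]

theorem hh_ge (D : ℕ) (hD : 1 ≤ D) : 1 / 2 ≤ hh D := by
  unfold hh
  have : (1 / 2 : ℝ) ^ D ≤ (1 / 2) ^ 1 := pow_le_pow_of_le_one (by norm_num) (by norm_num) hD
  linarith

theorem clue_small_ge (k D : ℕ) (hk : 1 ≤ k) (hD : 1 ≤ D) :
    1 - 2 * (1 / 2 : ℝ) ^ D ≤ clue (1 / 2) (sgn (tribesOrAnd k D)) (small k D) := by
  rw [clue_small]
  have h1 := aa_le k
  have h2 := aa_ge k hk
  have h3 := hh_ge D hD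
  have h4 := hh_le D
  have h5 : (1 / 2 : ℝ) ^ D = 1 - hh D := by unfold hh; ring
  rw [h5]
  set a := aa k
  set h := hh D
  have hah : a * h ≤ 1 / 2 := by nlinarith
  have hpos : 0 < a * h - (a * h) ^ 2 := by
    have : 0 < a * h := by positivity
    nlinarith
  rw [le_div_iff₀ hpos]
  have e1 : (1 - 2 * (1 - h)) * (a * h - (a * h) ^ 2) =
      a * h * ((2 * h - 1) * (1 - a * h)) := by ring
  have e2 : h ^ 2 * (a - a ^ 2) = a * h * (h * (1 - a)) := by ring
  rw [e1, e2]
  refine mul_le_mul_of_nonneg_left ?_ (by positivity)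
  nlinarith [mul_nonneg (show 0 ≤ 1 - h by linarith) (show 0 ≤ 1 - 2 * (a * h) by linarith)]

theorem variance_sgn_ge (k D : ℕ) (hk : 1 ≤ k) (hD : 1 ≤ D) :
    1 / 4 ≤ variance (1 / 2) (sgn (tribesOrAnd k D)) := by
  have e : sgn (tribesOrAnd k D) = fun ω => 1 + (-2) * ind k D ω := funext (sgn_eq k D)
  rw [e, variance_affine, variance_ind]
  have h1 := aa_le k
  have h2 := aa_ge k hk
  have h3 := hh_ge D hD
  have h4 := hh_le D
  set a := aa k
  set h := hh D
  have hah : a * h ≤ 1 / 2 := by nlinarith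
  have hah2 : 1 / 8 ≤ a * h := by nlinarith
  nlinarith

/-! ### Noise sensitivity -/

theorem noisyLaw_sum (ε : ℝ) : ∑ s, noisyLaw (1 / 2) ε s = 1 := by
  simp [Fintype.sum_prod_type, noisyLaw, law]
  ring

theorem noisyLaw_fst (ε : ℝ) : ∑ s, noisyLaw (1 / 2) ε s * bit s.1 = 1 / 2 := by
  simp [Fintype.sum_prod_type, noisyLaw, law, bit]
  ring

theorem noisyLaw_snd (ε : ℝ) : ∑ s, noisyLaw (1 / 2) ε s * bit s.2 = 1 / 2 := by
  simp [Fintype.sum_prod_type, noisyLaw, law, bit]
  ring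

theorem noisyLaw_both (ε : ℝ) : ∑ s, noisyLaw (1 / 2) ε s * (bit s.1 * bit s.2) =
    1 / 2 * (1 - ε / 2) := by
  simp [Fintype.sum_prod_type, noisyLaw, law, bit]
  ring

theorem noiseCov_eq (k D : ℕ) (ε : ℝ) : noiseCov (1 / 2) ε (sgn (tribesOrAnd k D)) =
    4 * ((1 - (1 / 2 : ℝ) ^ k - (1 / 2) ^ k + (1 / 2 * (1 - ε / 2)) ^ k) ^ (2 ^ k) *
      (1 - (1 / 2 : ℝ) ^ D - (1 / 2) ^ D + (1 / 2 * (1 - ε / 2)) ^ D) -
      (aa k * hh D) ^ 2) := by
  have e : sgn (tribesOrAnd k D) = fun ω => 1 + (-2) * ind k D ω := funext (sgn_eq k D)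
  have hw := noisyLaw_sum ε
  have A : prodSum (noisyLaw (1 / 2) ε)
      (fun ζ : Vars k D → Bool × Bool => ind k D (fun v => (ζ v).1)) = aa k * hh D := by
    have h := prodSum_sumType (noisyLaw (1 / 2) ε) (blocks (fun s : Bool × Bool => bit s.1) k)
      (rest (fun s : Bool × Bool => bit s.1) D)
    rw [prodSum_blocks _ hw, prodSum_rest _ hw, noisyLaw_fst] at h
    exact h
  have B : prodSum (noisyLaw (1 / 2) ε)
      (fun ζ : Vars k D → Bool × Bool => ind k D (fun v => (ζ v).2)) = aa k * hh D := by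
    have h := prodSum_sumType (noisyLaw (1 / 2) ε) (blocks (fun s : Bool × Bool => bit s.2) k)
      (rest (fun s : Bool × Bool => bit s.2) D)
    rw [prodSum_blocks _ hw, prodSum_rest _ hw, noisyLaw_snd] at h
    exact h
  have C : prodSum (noisyLaw (1 / 2) ε)
      (fun ζ : Vars k D → Bool × Bool => ind k D (fun v => (ζ v).1) * ind k D (fun v => (ζ v).2)) =
      (1 - (1 / 2 : ℝ) ^ k - (1 / 2) ^ k + (1 / 2 * (1 - ε / 2)) ^ k) ^ (2 ^ k) *
      (1 - (1 / 2 : ℝ) ^ D - (1 / 2) ^ D + (1 / 2 * (1 - ε / 2)) ^ D) := by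
    have h := prodSum_sumType (noisyLaw (1 / 2) ε)
      (fun ζ => blocks (fun s : Bool × Bool => bit s.1) k ζ *
        blocks (fun s : Bool × Bool => bit s.2) k ζ)
      (fun ζ => rest (fun s : Bool × Bool => bit s.1) D ζ *
        rest (fun s : Bool × Bool => bit s.2) D ζ)
    rw [prodSum_blocks2 _ hw, prodSum_rest2 _ hw, noisyLaw_fst, noisyLaw_snd, noisyLaw_both] at h
    rw [← h]
    congr 1
    funext ζ
    unfold ind blocks rest
    ring
  unfold noiseCov
  rw [e]
  have e2 : (fun ζ : Vars k D → Bool × Bool => (1 + (-2) * ind k D (fun v => (ζ v).1)) *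
      (1 + (-2) * ind k D (fun v => (ζ v).2))) = fun ζ =>
      ((1 + (-2) * ind k D (fun v => (ζ v).1)) + (-2) * ind k D (fun v => (ζ v).2)) +
      4 * (ind k D (fun v => (ζ v).1) * ind k D (fun v => (ζ v).2)) := by
    funext ζ; ring
  rw [e2, prodSum_add, prodSum_add, prodSum_add, prodSum_const_mul, prodSum_const_mul,
    prodSum_const_mul, prodSum_one _ hw, A, B, C]
  have hm : mean (1 / 2) (fun ω => 1 + (-2) * ind k D ω) = 1 + (-2) * (aa k * hh D) := by
    rw [← mean_ind]
    unfold mean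
    rw [prodSum_add, prodSum_const_mul, prodSum_one _ (law_sum _)]
  rw [hm]
  ring

theorem pow_sub_le {x y : ℝ} (hy : 0 ≤ y) (hxy : y ≤ x) (hx : x ≤ 1) (N : ℕ) :
    0 ≤ x ^ N - y ^ N ∧ x ^ N - y ^ N ≤ N * (x - y) := by
  refine ⟨sub_nonneg.2 (pow_le_pow_left₀ hy hxy N), ?_⟩
  induction N with
  | zero => simp
  | succ N ih =>
    have h1 : x ^ N ≤ 1 := pow_le_one₀ (hy.trans hxy) hx
    have h2 : 0 ≤ x ^ N - y ^ N := sub_nonneg.2 (pow_le_pow_left₀ hy hxy N)
    have h3 : x ^ (N + 1) - y ^ (N + 1) = x ^ N * (x - y) + y * (x ^ N - y ^ N) := by ring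
    have h4 : y * (x ^ N - y ^ N) ≤ 1 * (x ^ N - y ^ N) :=
      mul_le_mul_of_nonneg_right (hxy.trans hx) h2
    have h5 : x ^ N * (x - y) ≤ 1 * (x - y) := mul_le_mul_of_nonneg_right h1 (by linarith)
    rw [h3]
    push_cast
    linarith

theorem noiseCov_bound (k D : ℕ) {ε : ℝ} (h0 : 0 < ε) (h1 : ε < 1) :
    |noiseCov (1 / 2) ε (sgn (tribesOrAnd k D))| ≤
      4 * ((1 - ε / 2) ^ k + (1 - ε / 2) ^ D) := by
  rw [noiseCov_eq]
  -- common estimates
  have key : ∀ j : ℕ, 0 ≤ (1 - (1 / 2 : ℝ) ^ j) ^ 2 ∧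
      (1 - (1 / 2 : ℝ) ^ j) ^ 2 ≤ 1 - (1 / 2 : ℝ) ^ j - (1 / 2) ^ j + (1 / 2 * (1 - ε / 2)) ^ j ∧
      1 - (1 / 2 : ℝ) ^ j - (1 / 2) ^ j + (1 / 2 * (1 - ε / 2)) ^ j ≤ 1 ∧
      1 - (1 / 2 : ℝ) ^ j - (1 / 2) ^ j + (1 / 2 * (1 - ε / 2)) ^ j -
        (1 - (1 / 2 : ℝ) ^ j) ^ 2 ≤ (1 / 2) ^ j * (1 - ε / 2) ^ j := by
    intro j
    have a1 : (0 : ℝ) < (1 / 2 : ℝ) ^ j := by positivity
    have a2 : (1 / 2 : ℝ) ^ j ≤ (1 - ε / 2) ^ j :=
      pow_le_pow_left₀ (by norm_num) (by linarith) j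
    have a3 : (1 - ε / 2) ^ j ≤ 1 := pow_le_one₀ (by linarith) (by linarith)
    rw [mul_pow]
    refine ⟨sq_nonneg _, ?_, ?_, ?_⟩ <;> nlinarith
  obtain ⟨b1, b2, b3, b4⟩ := key k
  obtain ⟨c1, c2, c3, c4⟩ := key D
  set X := 1 - (1 / 2 : ℝ) ^ k - (1 / 2) ^ k + (1 / 2 * (1 - ε / 2)) ^ k
  set Y := 1 - (1 / 2 : ℝ) ^ D - (1 / 2) ^ D + (1 / 2 * (1 - ε / 2)) ^ D
  have haa : aa k ^ 2 = ((1 - (1 / 2 : ℝ) ^ k) ^ 2) ^ (2 ^ k) := by
    unfold aa; rw [← pow_mul, ← pow_mul, mul_comm]
  have hhh : hh D ^ 2 = (1 - (1 / 2 : ℝ) ^ D) ^ 2 := rfl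
  rw [mul_pow, haa, hhh]
  set x := (1 - (1 / 2 : ℝ) ^ k) ^ 2
  set y := (1 - (1 / 2 : ℝ) ^ D) ^ 2
  obtain ⟨d1, d2⟩ := pow_sub_le b1 b2 b3 (2 ^ k)
  have d3 : X ^ (2 ^ k) - x ^ (2 ^ k) ≤ (1 - ε / 2) ^ k := by
    refine d2.trans ?_
    have e1 : ((2 ^ k : ℕ) : ℝ) * (X - x) ≤ ((2 ^ k : ℕ) : ℝ) * ((1 / 2) ^ k * (1 - ε / 2) ^ k) :=
      mul_le_mul_of_nonneg_left b4 (by positivity)
    refine e1.trans (le_of_eq ?_)
    push_cast
    rw [← mul_assoc, ← mul_pow]
    norm_num
  have d4 : Y - y ≤ (1 - ε / 2) ^ D := by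
    refine c4.trans ?_
    have e1 : (1 / 2 : ℝ) ^ D ≤ 1 := pow_le_one₀ (by norm_num) (by norm_num)
    have e2 : (0 : ℝ) ≤ (1 - ε / 2) ^ D := pow_nonneg (by linarith) _
    nlinarith
  have f1 : 0 ≤ x ^ (2 ^ k) := pow_nonneg b1 _
  have f2 : x ^ (2 ^ k) ≤ 1 := pow_le_one₀ b1 (b2.trans b3)
  have f3 : 0 ≤ Y := c1.trans c2
  rw [abs_of_nonneg]
  · nlinarith
  · nlinarith

end Example

/-! ### The theorem -/

theorem clue_univ {V : Type} [Fintype V] [DecidableEq V] {p : ℝ} {F : (V → Bool) → ℝ}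
    (h : variance p F ≠ 0) : clue p F univ = 1 := by
  have e : condMean p F univ = F := by
    funext ω
    unfold condMean mean
    simp only [mem_univ, if_true]
    exact prodSum_const _ (law_sum p) _
  unfold clue
  rw [e, div_self h]

theorem monotone_tribesOrAnd (k D : ℕ) : Monotone (tribesOrAnd k D) := by
  intro ω ω' h
  rw [Bool.le_iff_imp]
  unfold tribesOrAnd
  simp only [decide_eq_true_eq]
  have h' : ∀ v, ω v = true → ω' v = true := fun v => Bool.le_iff_imp.1 (h v)
  rintro (⟨a, ha⟩ | hd)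
  · exact Or.inl ⟨a, fun b => h' _ (ha b)⟩
  · exact Or.inr fun d => h' _ (hd d)

theorem relevant (k D : ℕ) (hk : 1 ≤ k) (hD : 1 ≤ D) (v : Vars k D) :
    ∃ ω : Vars k D → Bool, tribesOrAnd k D (Function.update ω v true) ≠
      tribesOrAnd k D (Function.update ω v false) := by
  have hN : 0 < 2 ^ k := by positivity
  rcases v with ⟨a, b⟩ | d
  · refine ⟨fun v => match v with
      | Sum.inl (a', _) => decide (a' = a)
      | Sum.inr _ => false, ?_⟩
    have h1 : tribesOrAnd k D (Function.update (fun v => match v with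
      | Sum.inl (a', _) => decide (a' = a)
      | Sum.inr _ => false) (Sum.inl (a, b)) true) = true := by
      unfold tribesOrAnd
      rw [decide_eq_true_eq]
      refine Or.inl ⟨a, fun b' => ?_⟩
      by_cases hb : b' = b
      · subst hb; simp
      · rw [Function.update_of_ne (by simp [hb])]; simp
    have h2 : tribesOrAnd k D (Function.update (fun v => match v with
      | Sum.inl (a', _) => decide (a' = a)
      | Sum.inr _ => false) (Sum.inl (a, b)) false) = false := by
      unfold tribesOrAnd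
      rw [decide_eq_false_iff_not]
      rintro (⟨a', ha'⟩ | hd)
      · by_cases haa : a' = a
        · subst haa
          have := ha' b
          simp at this
        · have := ha' ⟨0, hk⟩
          rw [Function.update_of_ne (by simp [haa])] at this
          simp [haa] at this
      · have := hd ⟨0, hD⟩
        rw [Function.update_of_ne (by simp)] at this
        simp at this
    rw [h1, h2]
    simp
  · refine ⟨fun v => match v with
      | Sum.inl _ => false
      | Sum.inr _ => true, ?_⟩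
    have h1 : tribesOrAnd k D (Function.update (fun v => match v with
      | Sum.inl _ => false
      | Sum.inr _ => true) (Sum.inr d) true) = true := by
      unfold tribesOrAnd
      rw [decide_eq_true_eq]
      refine Or.inr fun d' => ?_
      by_cases hb : d' = d
      · subst hb; simp
      · rw [Function.update_of_ne (by simp [hb])]
    have h2 : tribesOrAnd k D (Function.update (fun v => match v with
      | Sum.inl _ => false
      | Sum.inr _ => true) (Sum.inr d) false) = false := by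
      unfold tribesOrAnd
      rw [decide_eq_false_iff_not]
      rintro (⟨a', ha'⟩ | hd)
      · have := ha' ⟨0, hk⟩
        rw [Function.update_of_ne (by simp)] at this
        simp at this
      · have := hd d
        simp at this
    rw [h1, h2]
    simp

/-- the number of variables in the tribes part -/
def ww (n : ℕ) : ℕ := 2 ^ (n + 1) * (n + 1)

/-- the number of further variables -/
def DD (n : ℕ) : ℕ := ww n * (n + 2) ^ ww n * (n + 1)

theorem ww_pos (n : ℕ) : 0 < ww n := by unfold ww; positivity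

theorem DD_ge (n : ℕ) : n + 1 ≤ DD n := by
  have h1 := ww_pos n
  have h2 : 0 < (n + 2) ^ ww n := by positivity
  unfold DD
  exact Nat.le_mul_of_pos_left _ (Nat.mul_pos h1 h2)

/-- **Disproof of the proposed inequality between clue profile and mean clue.** There is a noise
sensitive sequence of monotone Boolean functions (fair bits, variances bounded below, all
variables relevant) for which, for every `δ ∈ (0,1)`, the quotient of the mean clue of the random
set of density `δ` by the clue profile at `δ` tends to infinity. -/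
theorem result : ∃ (V : ℕ → Type) (_ : ∀ n, Fintype (V n)) (_ : ∀ n, DecidableEq (V n))
    (f : ∀ n, (V n → Bool) → Bool),
    Tendsto (fun n => Fintype.card (V n)) atTop atTop ∧
    (∀ n, Monotone (f n)) ∧
    (∀ n, 1 / 4 ≤ variance (1 / 2) (sgn (f n))) ∧
    (∀ n (v : V n), ∃ ω, f n (Function.update ω v true) ≠ f n (Function.update ω v false)) ∧
    (∀ ε : ℝ, 0 < ε → ε < 1 → Tendsto (fun n => noiseCov (1 / 2) ε (sgn (f n))) atTop (𝓝 0)) ∧
    ∀ δ : ℝ, 0 < δ → δ < 1 →
      (∀ n, 0 < clueProfile (1 / 2) (sgn (f n)) δ) ∧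
      Tendsto (fun n => meanClue (1 / 2) (sgn (f n)) δ / clueProfile (1 / 2) (sgn (f n)) δ)
        atTop atTop := by
  have hD1 : ∀ n, 1 ≤ DD n := fun n => le_trans (by omega) (DD_ge n)
  have hk1 : ∀ n : ℕ, 1 ≤ n + 1 := fun n => by omega
  have hcard : ∀ n, Fintype.card (Vars (n + 1) (DD n)) = ww n + DD n := by
    intro n
    simp [Vars, ww]
  refine ⟨fun n => Vars (n + 1) (DD n), fun n => inferInstance, fun n => inferInstance,
    fun n => tribesOrAnd (n + 1) (DD n), ?_, fun n => monotone_tribesOrAnd _ _,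
    fun n => variance_sgn_ge _ _ (hk1 n) (hD1 n), fun n v => relevant _ _ (hk1 n) (hD1 n) v, ?_, ?_⟩
  · refine tendsto_atTop_mono (fun n => ?_) tendsto_id
    rw [hcard]
    have := DD_ge n
    simp only [id]
    omega
  · intro ε h0 h1
    have hr0 : 0 ≤ 1 - ε / 2 := by linarith
    have hr1 : 1 - ε / 2 < 1 := by linarith
    rw [tendsto_zero_iff_abs_tendsto_zero]
    have hlim : Tendsto (fun n : ℕ => 4 * ((1 - ε / 2) ^ (n + 1) + (1 - ε / 2) ^ (n + 1)))
        atTop (𝓝 0) := by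
      have h := (tendsto_pow_atTop_nhds_zero_of_lt_one hr0 hr1).comp (tendsto_add_atTop_nat 1)
      have h2 := (h.add h).const_mul 4
      simpa using h2
    refine squeeze_zero (fun n => abs_nonneg _) (fun n => ?_) hlim
    refine (noiseCov_bound (n + 1) (DD n) h0 h1).trans ?_
    have : (1 - ε / 2) ^ DD n ≤ (1 - ε / 2) ^ (n + 1) :=
      pow_le_pow_of_le_one hr0 hr1.le (DD_ge n)
    linarith
  · intro δ h0 h1
    have hcp : ∀ n, 0 < clueProfile (1 / 2) (sgn (tribesOrAnd (n + 1) (DD n))) δ := by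
      intro n
      have hv := variance_sgn_ge (n + 1) (DD n) (hk1 n) (hD1 n)
      refine clueProfile_pos h0 (W := univ) ?_
      rw [clue_univ (by linarith)]
      exact h1.le
    refine ⟨hcp, ?_⟩
    have hlim1 : Tendsto (fun n : ℕ => 1 - 2 * (1 / 2 : ℝ) ^ (n + 1)) atTop (𝓝 1) := by
      have h := (tendsto_pow_atTop_nhds_zero_of_lt_one (r := (1 / 2 : ℝ)) (by norm_num)
        (by norm_num)).comp (tendsto_add_atTop_nat 1)
      have h2 := (h.const_mul 2).const_sub 1
      simpa using h2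
    have hev1 : ∀ᶠ n : ℕ in atTop, max δ (1 / 2) < 1 - 2 * (1 / 2 : ℝ) ^ (n + 1) :=
      hlim1.eventually_const_lt (max_lt h1 (by norm_num))
    obtain ⟨n₀, hn₀⟩ := exists_nat_ge (1 / δ)
    have hmain : Tendsto (fun n : ℕ => ((n : ℝ) + 1) / 2) atTop atTop := by
      refine Tendsto.atTop_div_const (by norm_num) ?_
      exact tendsto_atTop_add_const_right _ _ tendsto_natCast_atTop_atTop
    refine tendsto_atTop_mono' _ ?_ hmain
    filter_upwards [hev1, eventually_ge_atTop n₀] with n hn hn2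
    have hcl : max δ (1 / 2) ≤
        clue (1 / 2) (sgn (tribesOrAnd (n + 1) (DD n))) (small (n + 1) (DD n)) := by
      refine hn.le.trans (le_trans ?_ (clue_small_ge (n + 1) (DD n) (hk1 n) (hD1 n)))
      have : (1 / 2 : ℝ) ^ DD n ≤ (1 / 2) ^ (n + 1) :=
        pow_le_pow_of_le_one (by norm_num) (by norm_num) (DD_ge n)
      linarith
    have hcl1 := (le_max_left _ _).trans hcl
    have hcl2 := (le_max_right _ _).trans hcl
    have hup := clueProfile_le hcl1
    have hlo := meanClue_ge (p := 1 / 2) (by norm_num) (by norm_num) h0.le h1.le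
      (sgn (tribesOrAnd (n + 1) (DD n))) (small (n + 1) (DD n))
    rw [small_card] at hup hlo
    rw [hcard] at hup
    change clueProfile (1 / 2) (sgn (tribesOrAnd (n + 1) (DD n))) δ ≤
      ((ww n : ℕ) : ℝ) / ((ww n + DD n : ℕ) : ℝ) at hup
    change δ ^ ww n * clue (1 / 2) (sgn (tribesOrAnd (n + 1) (DD n))) (small (n + 1) (DD n)) ≤
      meanClue (1 / 2) (sgn (tribesOrAnd (n + 1) (DD n))) δ at hlo
    have hw : (0 : ℝ) < ww n := by exact_mod_cast ww_pos n
    have hV : (0 : ℝ) < ((ww n + DD n : ℕ) : ℝ) := by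
      have := ww_pos n
      exact_mod_cast (by omega : 0 < ww n + DD n)
    rw [le_div_iff₀ (hcp n)]
    refine le_trans (mul_le_mul_of_nonneg_left hup (by positivity)) (le_trans ?_ hlo)
    have h5 : δ ^ ww n * (1 / 2) ≤
        δ ^ ww n * clue (1 / 2) (sgn (tribesOrAnd (n + 1) (DD n))) (small (n + 1) (DD n)) :=
      mul_le_mul_of_nonneg_left hcl2 (by positivity)
    refine le_trans ?_ h5
    -- `(n+1)/2 * (w/(w+D)) ≤ δ^w / 2`
    have h6 : 1 ≤ (δ * ((n : ℝ) + 2)) ^ ww n := by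
      refine one_le_pow₀ ?_
      have h7 : 1 / δ ≤ (n : ℝ) + 2 := by
        have : ((n₀ : ℕ) : ℝ) ≤ n := by exact_mod_cast hn2
        linarith
      rw [div_le_iff₀ h0] at h7
      linarith
    have h8 : ((DD n : ℕ) : ℝ) = ww n * ((n : ℝ) + 2) ^ ww n * (n + 1) := by
      unfold DD; push_cast; ring
    have h9 : ((n : ℝ) + 1) * ww n ≤ δ ^ ww n * ((ww n + DD n : ℕ) : ℝ) := by
      have h10 : ((n : ℝ) + 1) * ww n * 1 ≤ ((n : ℝ) + 1) * ww n * (δ * ((n : ℝ) + 2)) ^ ww n :=
        mul_le_mul_of_nonneg_left h6 (by positivity)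
      have h11 : ((n : ℝ) + 1) * ww n * (δ * ((n : ℝ) + 2)) ^ ww n = δ ^ ww n * (DD n : ℕ) := by
        rw [h8, mul_pow]; ring
      have h12 : δ ^ ww n * ((DD n : ℕ) : ℝ) ≤ δ ^ ww n * ((ww n + DD n : ℕ) : ℝ) := by
        refine mul_le_mul_of_nonneg_left ?_ (by positivity)
        push_cast
        linarith
      linarith
    have h13 : ((n : ℝ) + 1) / 2 * (((ww n : ℕ) : ℝ) / ((ww n + DD n : ℕ) : ℝ)) =
        (((n : ℝ) + 1) * ww n / ((ww n + DD n : ℕ) : ℝ)) * (1 / 2) := by ring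
    rw [h13]
    refine mul_le_mul_of_nonneg_right ?_ (by norm_num)
    rw [div_le_iff₀ hV]
    exact h9

end Pool.Agent.Results.MP_b26fee_pr.CheapReveal
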